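import Pool.Agent.Helper74.LL.GoalsI

/-!
Project LL (MP_cc6379_al), packet LL-IDS.
-/

set_option autoImplicit false

open LaurentPolynomial Pool.Agent.Helper15.RA Pool.Agent.Helper45.AM

noncomputable section

namespace Pool.Agent.Helper2.LL.IDS

open Pool.Agent.Helper74.LL

variable {S W H : Type} [Group W] [Ring H] [Algebra ℤ[T;T⁻¹] H] (X : TD S W H)

/-- expansion in `T` -/
theorem eq_sumT (Z : H) : Z = ∑ u ∈ (X.D.t.repr Z).support, X.D.t.repr Z u • X.D.t u :=
  (X.D.t.linearCombination_repr Z).symm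

/-- the span of the `T_w`, `ℓ(w) < n` -/
def Lt (n : ℕ) : Submodule ℤ[T;T⁻¹] H := Submodule.span ℤ[T;T⁻¹] {Z | ∃ w, X.cs.length w < n ∧ Z = X.D.t w}

/-- `c_z`, `z ∈ W_I`, `N ≤ α z` -/
def Qm (I : Set S) (N : ℕ) : Submodule ℤ[T;T⁻¹] H :=
  Submodule.span ℤ[T;T⁻¹] {Z | ∃ w, w ∈ par X.cs I ∧ N ≤ X.α w ∧ Z = X.D.c w}

/-- `B x g y` admissible, `N ≤ α g`, `ℓ(x) ≤ a`, `ℓ(y) ≤ b`. -/
def En (N a b : ℕ) : Submodule ℤ[T;T⁻¹] H :=
  Submodule.span ℤ[T;T⁻¹] {Z | ∃ x g y, X.Adm x g y ∧ N ≤ X.α g ∧ X.cs.length x ≤ a ∧ X.cs.length y ≤ b ∧ Z = X.B x g y}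

/-- `B x g y` admissible, `N ≤ α g` -/
def Ei (N : ℕ) : Submodule ℤ[T;T⁻¹] H :=
  Submodule.span ℤ[T;T⁻¹] {Z | ∃ x g y, X.Adm x g y ∧ N ≤ X.α g ∧ Z = X.B x g y}

theorem En_le (N a b : ℕ) : En X N a b ≤ Ei X N := by
  apply Submodule.span_mono
  rintro Z ⟨x, g, y, h1, h2, -, -, h3⟩
  exact ⟨x, g, y, h1, h2, h3⟩

theorem En_mono {N a b a' b' : ℕ} (ha : a ≤ a') (hb : b ≤ b') : En X N a b ≤ En X N a' b' := by
  apply Submodule.span_mono
  rintro Z ⟨x, g, y, h1, h2, h3, h4, h5⟩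
  exact ⟨x, g, y, h1, h2, h3.trans ha, h4.trans hb, h5⟩

section q

variable {X} {I : Set S} {N : ℕ}

theorem c_mul_Q (hI : Sm I) {k : W} (hk : k ∈ par X.cs I) {q : H} (hq : q ∈ Qm X I N) : X.D.c k * q ∈ Qm X I N := by
  obtain ⟨-, -, -, -, -, s6, -⟩ := Pool.Agent.Helper15.AM.k_as S W H X.toBase I
  induction hq using Submodule.span_induction with
  | mem Z hZ =>
    obtain ⟨w, hw, hN, rfl⟩ := hZ
    rw [X.eq_sum (X.D.c k * X.D.c w), X.repr_mul_c]
    refine Submodule.sum_mem _ fun z hz => Submodule.smul_mem _ _ (Submodule.subset_span ?_)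
    have hz' := Finsupp.mem_support_iff.1 hz
    have h1 := s6 k hk w hw z hz'
    exact ⟨z, h1, hN.trans ((X.pg I hI).p4 k hk w hw z h1 hz').2, rfl⟩
  | zero => rw [mul_zero]; exact zero_mem _
  | add Y Z _ _ h1 h2 => rw [mul_add]; exact add_mem h1 h2
  | smul p Z _ h => rw [mul_smul_comm]; exact Submodule.smul_mem _ _ h

theorem Q_mul_c (hI : Sm I) {k : W} (hk : k ∈ par X.cs I) {q : H} (hq : q ∈ Qm X I N) : q * X.D.c k ∈ Qm X I N := by
  obtain ⟨-, -, -, -, -, s6, -⟩ := Pool.Agent.Helper15.AM.k_as S W H X.toBase I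
  induction hq using Submodule.span_induction with
  | mem Z hZ =>
    obtain ⟨w, hw, hN, rfl⟩ := hZ
    rw [X.eq_sum (X.D.c w * X.D.c k), X.repr_mul_c]
    refine Submodule.sum_mem _ fun z hz => Submodule.smul_mem _ _ (Submodule.subset_span ?_)
    have hz' := Finsupp.mem_support_iff.1 hz
    have h1 := s6 w hw k hk z hz'
    exact ⟨z, h1, hN.trans ((X.pg I hI).p4 w hw k hk z h1 hz').1, rfl⟩
  | zero => rw [zero_mul]; exact zero_mem _
  | add Y Z _ _ h1 h2 => rw [add_mul]; exact add_mem h1 h2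
  | smul p Z _ h => rw [smul_mul_assoc]; exact Submodule.smul_mem _ _ h

theorem t_mul_Q (hI : Sm I) {v : W} (hv : v ∈ par X.cs I) {q : H} (hq : q ∈ Qm X I N) : X.D.t v * q ∈ Qm X I N := by
  obtain ⟨-, -, -, -, s5, -⟩ := Pool.Agent.Helper15.AM.k_as S W H X.toBase I
  rw [X.eq_sum (X.D.t v), Finsupp.sum, Finset.sum_mul]
  refine Submodule.sum_mem _ fun k hk => ?_
  rw [smul_mul_assoc]
  exact Submodule.smul_mem _ _ (c_mul_Q hI (s5 v hv k (Finsupp.mem_support_iff.1 hk)) hq)

theorem Q_mul_t (hI : Sm I) {v : W} (hv : v ∈ par X.cs I) {q : H} (hq : q ∈ Qm X I N) : q * X.D.t v ∈ Qm X I N := by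
  obtain ⟨-, -, -, -, s5, -⟩ := Pool.Agent.Helper15.AM.k_as S W H X.toBase I
  rw [X.eq_sum (X.D.t v), Finsupp.sum, Finset.mul_sum]
  refine Submodule.sum_mem _ fun k hk => ?_
  rw [mul_smul_comm]
  exact Submodule.smul_mem _ _ (Q_mul_c hI (s5 v hv k (Finsupp.mem_support_iff.1 hk)) hq)

/-- (1) -/
theorem step1 (hI : Sm I) {g : W} (hg : g ∈ par X.cs I) (hN : N ≤ X.α g) (u u' : W) :
    X.D.t u * X.D.c g * X.D.t u' ∈ En X N (X.cs.length u) (X.cs.length u') := by
  obtain ⟨-, a2, a3⟩ := Pool.Agent.Helper15.AM.k_gpa S W X.M X.cs I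
  obtain ⟨-, -, -, c4, c5, -⟩ := Pool.Agent.Helper15.AM.k_gpc S W X.M X.cs I
  obtain ⟨x', v, hv, hx', rfl⟩ := a2 u
  obtain ⟨v', hv', y', hy', rfl⟩ := c4 u'
  have l1 := a3 x' hx' v hv
  have l2 := c5 y' hy' v' hv'
  rw [← X.D.mul _ _ l1, ← X.D.mul _ _ l2]
  have hq : X.D.t v * X.D.c g * X.D.t v' ∈ Qm X I N :=
    Q_mul_t hI hv' (t_mul_Q hI hv (Submodule.subset_span ⟨g, hg, hN, rfl⟩))
  have e : X.D.t x' * X.D.t v * X.D.c g * (X.D.t v' * X.D.t y') =
      X.D.t x' * (X.D.t v * X.D.c g * X.D.t v') * X.D.t y' := by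
    simp only [mul_assoc]
  rw [e]
  generalize X.D.t v * X.D.c g * X.D.t v' = q at hq
  induction hq using Submodule.span_induction with
  | mem Z hZ =>
    obtain ⟨w, hw, hNw, rfl⟩ := hZ
    exact Submodule.subset_span ⟨x', w, y', ⟨I, hI, hx', hw, hy'⟩, hNw, by omega, by omega, rfl⟩
  | zero => rw [mul_zero, zero_mul]; exact zero_mem _
  | add Y Z _ _ h1 h2 => rw [mul_add, add_mul]; exact add_mem h1 h2
  | smul p Z _ h => rw [mul_smul_comm, smul_mul_assoc]; exact Submodule.smul_mem _ _ h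

end q

section lt

variable {X}

theorem t_mem_Lt {w : W} {n : ℕ} (h : X.cs.length w < n) : X.D.t w ∈ Lt X n := Submodule.subset_span ⟨w, h, rfl⟩

theorem mem_Lt_of {Z : H} {n : ℕ} (h : ∀ w, X.D.t.repr Z w ≠ 0 → X.cs.length w < n) : Z ∈ Lt X n := by
  rw [eq_sumT X Z]
  exact Submodule.sum_mem _ fun u hu => Submodule.smul_mem _ _ (t_mem_Lt (h u (Finsupp.mem_support_iff.1 hu)))

theorem t_mul_Lt (u : W) {n : ℕ} {Z : H} (hZ : Z ∈ Lt X n) : X.D.t u * Z ∈ Lt X (X.cs.length u + n) := by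
  obtain ⟨-, -, -, -, -, a6, -⟩ := g_h1 S W H X.M X.cs X.L X.D.toHecke0
  induction hZ using Submodule.span_induction with
  | mem Z hZ =>
    obtain ⟨w, hw, rfl⟩ := hZ
    exact mem_Lt_of fun k hk => (a6 u w k hk).trans_lt (by omega)
  | zero => rw [mul_zero]; exact zero_mem _
  | add Y Z _ _ h1 h2 => rw [mul_add]; exact add_mem h1 h2
  | smul p Z _ h => rw [mul_smul_comm]; exact Submodule.smul_mem _ _ h

theorem Lt_mul_t (u : W) {n : ℕ} {Z : H} (hZ : Z ∈ Lt X n) : Z * X.D.t u ∈ Lt X (n + X.cs.length u) := by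
  obtain ⟨-, -, -, -, -, a6, -⟩ := g_h1 S W H X.M X.cs X.L X.D.toHecke0
  induction hZ using Submodule.span_induction with
  | mem Z hZ =>
    obtain ⟨w, hw, rfl⟩ := hZ
    exact mem_Lt_of fun k hk => (a6 w u k hk).trans_lt (by omega)
  | zero => rw [zero_mul]; exact zero_mem _
  | add Y Z _ _ h1 h2 => rw [add_mul]; exact add_mem h1 h2
  | smul p Z _ h => rw [smul_mul_assoc]; exact Submodule.smul_mem _ _ h

theorem Lt_repr {n : ℕ} {Z : H} (hZ : Z ∈ Lt X n) : ∀ w, n ≤ X.cs.length w → X.b.repr Z w = 0 := by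
  obtain ⟨-, -, -, b4, -⟩ := Pool.Agent.Helper15.AM.k_ab S W H X.toBase
  induction hZ using Submodule.span_induction with
  | mem Z hZ =>
    obtain ⟨u, hu, rfl⟩ := hZ
    intro w hw
    by_contra hne
    rcases b4 u w hne with h | h
    · subst h; omega
    · omega
  | zero => intro w _; rw [map_zero, Finsupp.zero_apply]
  | add Y Z _ _ h1 h2 => intro w hw; rw [map_add, Finsupp.add_apply, h1 w hw, h2 w hw, add_zero]
  | smul p Z _ h => intro w hw; rw [map_smul, Finsupp.smul_apply, h w hw, smul_zero]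

/-- `bar T_x - T_x` is in lengths `< ℓ(x)` -/
theorem bar_sub (x : W) : X.D.bar (X.D.t x) - X.D.t x ∈ Lt X (X.cs.length x) := by
  classical
  obtain ⟨-, c2, c3, -⟩ := g_h2 S W H X.M X.cs X.L X.wt X.D
  refine mem_Lt_of fun w hw => ?_
  rw [map_sub, Finsupp.sub_apply, Module.Basis.repr_self, Finsupp.single_apply] at hw
  by_cases hwx : w = x
  · subst hwx
    rw [c2, if_pos rfl, sub_self] at hw
    exact absurd rfl hw
  · rw [if_neg (fun h => hwx h.symm), sub_zero] at hw
    rcases c3 x w hw with h | h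
    · exact absurd h hwx
    · exact h

/-- `c_g - T_g` is in lengths `< ℓ(g)` -/
theorem c_sub (x : W) : X.D.c x - X.D.t x ∈ Lt X (X.cs.length x) := by
  classical
  obtain ⟨-, -, -, c4, c5, -⟩ := g_h2 S W H X.M X.cs X.L X.wt X.D
  refine mem_Lt_of fun w hw => ?_
  rw [map_sub, Finsupp.sub_apply, Module.Basis.repr_self, Finsupp.single_apply] at hw
  by_cases hwx : w = x
  · subst hwx
    rw [c4, if_pos rfl, sub_self] at hw
    exact absurd rfl hw
  · rw [if_neg (fun h => hwx h.symm), sub_zero] at hw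
    rcases c5 x w hw with h | h
    · exact absurd h hwx
    · exact h

/-- `bar` in the basis `c` -/
theorem repr_bar (Z : H) (z : W) : X.b.repr (X.D.bar Z) z = invert (X.b.repr Z z) := by
  classical
  obtain ⟨c1, -⟩ := g_h2 S W H X.M X.cs X.L X.wt X.D
  conv_lhs => rw [X.eq_sum Z]
  rw [Finsupp.sum, map_sum, map_sum, Finsupp.finsetSum_apply]
  have : ∀ w ∈ (X.b.repr Z).support, X.b.repr (X.D.bar (X.b.repr Z w • X.D.c w)) z =
      if w = z then invert (X.b.repr Z z) else 0 := by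
    intro w _
    rw [c1, X.D.bar_c, map_smul, Finsupp.smul_apply, smul_eq_mul, ← X.hb w, Module.Basis.repr_self,
      Finsupp.single_apply]
    split_ifs with h
    · rw [h, mul_one]
    · rw [mul_zero]
  rw [Finset.sum_congr rfl this, Finset.sum_ite_eq']
  split_ifs with h
  · rfl
  · rw [Finsupp.notMem_support_iff.1 h, map_zero]

/-- (1) for combinations -/
theorem step1' {N : ℕ} {I : Set S} (hI : Sm I) {g : W} (hg : g ∈ par X.cs I) (hN : N ≤ X.α g) {a b : ℕ} {Y Z : H}
    (hY : Y ∈ Lt X (a + 1)) (hZ : Z ∈ Lt X (b + 1)) : Y * X.D.c g * Z ∈ En X N a b := by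
  induction hY using Submodule.span_induction with
  | mem Y hY =>
    obtain ⟨u, hu, rfl⟩ := hY
    induction hZ using Submodule.span_induction with
    | mem Z hZ =>
      obtain ⟨u', hu', rfl⟩ := hZ
      exact En_mono X (by omega) (by omega) (step1 hI hg hN u u')
    | zero => rw [mul_zero]; exact zero_mem _
    | add Y Z _ _ h1 h2 => rw [mul_add]; exact add_mem h1 h2
    | smul p Z _ h => rw [mul_smul_comm]; exact Submodule.smul_mem _ _ h
  | zero => rw [zero_mul, zero_mul]; exact zero_mem _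
  | add Y Z _ _ h1 h2 => rw [add_mul, add_mul]; exact add_mem h1 h2
  | smul p Z _ h => rw [smul_mul_assoc, smul_mul_assoc]; exact Submodule.smul_mem _ _ h

end lt

variable {X}

/-- (2) -/
theorem step2 {M : ℕ} (hmono : ∀ m m' w, X.Ge m w → m' ≤ m → X.Ge m' w) (hBP : ∀ n, X.BP (M + 1) n) :
    ∀ (n : ℕ) (x g y : W), X.cs.length x + X.cs.length y = n → X.Adm x g y → M + 1 ≤ X.α g → X.B x g y ∈ X.Vm M := by
  intro n
  induction n using Nat.strong_induction_on with
  | _ n ih =>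
    intro x g y hn hadm hα
    have hE : ∀ a b, a + b < n → En X (M + 1) a b ≤ X.Vm M := by
      intro a b hab
      refine Submodule.span_le.2 ?_
      rintro Z ⟨x', g', y', h1, h2, h3, h4, rfl⟩
      exact ih _ (by omega) x' g' y' rfl h1 h2
    obtain ⟨I, hI, hx, hg, hy⟩ := hadm
    have hdiff : X.D.bar (X.B x g y) - X.B x g y ∈ X.Vm M := by
      have e : X.D.bar (X.B x g y) - X.B x g y =
          (X.D.bar (X.D.t x) - X.D.t x) * X.D.c g * X.D.bar (X.D.t y) +
          X.D.t x * X.D.c g * (X.D.bar (X.D.t y) - X.D.t y) := by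
        unfold TD.B
        rw [map_mul, map_mul, X.D.bar_c]
        noncomm_ring
      rw [e]
      refine add_mem ?_ ?_
      · rcases Nat.eq_zero_or_pos (X.cs.length x) with h0 | h0
        · have := bar_sub (X := X) x
          rw [h0] at this
          have hz : X.D.bar (X.D.t x) - X.D.t x = 0 := by
            have h2 : Lt X 0 = ⊥ := by
              rw [Lt, Submodule.span_eq_bot]
              rintro Z ⟨w, hw, -⟩
              omega
            rw [h2] at this
            exact (Submodule.mem_bot _).1 this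
          rw [hz, zero_mul, zero_mul]
          exact zero_mem _
        · refine hE (X.cs.length x - 1) (X.cs.length y) (by omega)
            (step1' hI hg hα ?_ ?_)
          · rw [Nat.sub_add_cancel h0]
            exact bar_sub x
          · have h3 := bar_sub (X := X) y
            have h4 : Lt X (X.cs.length y) ≤ Lt X (X.cs.length y + 1) := by
              apply Submodule.span_mono
              rintro Z ⟨w, hw, hZ⟩
              exact ⟨w, by omega, hZ⟩
            have h5 := add_mem (h4 h3) (t_mem_Lt (X := X) (w := y) (n := X.cs.length y + 1) (by omega))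
            rwa [sub_add_cancel] at h5
      · rcases Nat.eq_zero_or_pos (X.cs.length y) with h0 | h0
        · have := bar_sub (X := X) y
          rw [h0] at this
          have hz : X.D.bar (X.D.t y) - X.D.t y = 0 := by
            have h2 : Lt X 0 = ⊥ := by
              rw [Lt, Submodule.span_eq_bot]
              rintro Z ⟨w, hw, -⟩
              omega
            rw [h2] at this
            exact (Submodule.mem_bot _).1 this
          rw [hz, mul_zero]
          exact zero_mem _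
        · refine hE (X.cs.length x) (X.cs.length y - 1) (by omega)
            (step1' hI hg hα (t_mem_Lt (by omega)) ?_)
          rw [Nat.sub_add_cancel h0]
          exact bar_sub y
    rw [TD.mem_Vm]
    intro z hz
    have hz2 : ¬ X.Ge (M + 1 + 1) z := fun h => hz (hmono _ _ z h (by omega))
    obtain ⟨d1, d2⟩ := hBP (n + 1) x g y ⟨I, hI, hx, hg, hy⟩ (by omega) z hz2
    have d3 : (X.b.repr (X.B x g y) z).coeff (((M + 1 : ℕ) : ℤ) - X.α g) = 0 := by
      by_contra h
      exact hz (d2 h)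
    have d4 := (degLE_sub_one d1 d3).mono (l := -1) (by push_cast; omega)
    apply eq_zero_of_invert d4
    rw [← repr_bar]
    have d5 := TD.mem_Vm.1 hdiff z hz
    rw [map_sub, Finsupp.sub_apply, sub_eq_zero] at d5
    exact d5

/-- (3) -/
theorem step3 {M : ℕ} (hdec : ∀ m z, X.Ge m z → ∃ (x g y : W) (I : Set S), Sm I ∧ XR X.cs I x ∧ g ∈ par X.cs I ∧ XL X.cs I y ∧
    z = x * g * y ∧ X.cs.length z = X.cs.length x + X.cs.length g + X.cs.length y ∧ m ≤ X.α g)
    (h2 : ∀ (x g y : W), X.Adm x g y → M + 1 ≤ X.α g → X.B x g y ∈ X.Vm M) :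
    ∀ (n : ℕ) (z : W), X.cs.length z = n → X.Ge (M + 1) z → X.D.c z ∈ Ei X (M + 1) := by
  classical
  intro n
  induction n using Nat.strong_induction_on with
  | _ n ih =>
    intro z hn hz
    obtain ⟨x, g, y, I, hI, hx, hg, hy, hzz, hl, hα⟩ := hdec _ z hz
    have hadm : X.Adm x g y := ⟨I, hI, hx, hg, hy⟩
    have hB : X.B x g y - X.D.t z ∈ Lt X (X.cs.length z) := by
      have l1 : X.cs.length (x * g) = X.cs.length x + X.cs.length g := by
        have e1 := X.cs.length_mul_le x g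
        have e2 := X.cs.length_mul_le (x * g) y
        rw [← hzz] at e2
        omega
      have l2 : X.cs.length (x * g * y) = X.cs.length (x * g) + X.cs.length y := by
        rw [← hzz, hl, l1]
      have e : X.B x g y - X.D.t z = X.D.t x * (X.D.c g - X.D.t g) * X.D.t y := by
        unfold TD.B
        rw [mul_sub, sub_mul, X.D.mul _ _ l1, X.D.mul _ _ l2, ← hzz]
      rw [e, hl]
      exact Lt_mul_t y (t_mul_Lt x (c_sub g))
    have hc : X.B x g y - X.D.c z ∈ Lt X (X.cs.length z) := by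
      have := sub_mem hB (c_sub (X := X) z)
      rwa [sub_sub_sub_cancel_right] at this
    have hmem : X.B x g y - X.D.c z ∈ Ei X (M + 1) := by
      rw [X.eq_sum (X.B x g y - X.D.c z)]
      refine Submodule.sum_mem _ fun w hw => Submodule.smul_mem _ _ ?_
      have hw' := Finsupp.mem_support_iff.1 hw
      have hlw : X.cs.length w < X.cs.length z := by
        by_contra hcon
        push Not at hcon
        exact hw' (Lt_repr hc w hcon)
      refine ih _ (hn ▸ hlw) w rfl ?_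
      by_contra hGe
      apply hw'
      have h3 : X.B x g y - X.D.c z ∈ X.Vm M := sub_mem (h2 x g y hadm hα) (X.c_mem_Vm hz)
      exact TD.mem_Vm.1 h3 w hGe
    have h4 : X.B x g y ∈ Ei X (M + 1) := Submodule.subset_span ⟨x, g, y, hadm, hα, rfl⟩
    have h5 := sub_mem h4 hmem
    rwa [sub_sub_cancel] at h5

/-- (4) -/
theorem t_mul_Ei {N : ℕ} (u : W) {Z : H} (hZ : Z ∈ Ei X N) : X.D.t u * Z ∈ Ei X N := by
  induction hZ using Submodule.span_induction with
  | mem Z hZ =>
    obtain ⟨x, g, y, ⟨I, hI, hx, hg, hy⟩, hα, rfl⟩ := hZ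
    have e : X.D.t u * X.B x g y = (X.D.t u * X.D.t x) * X.D.c g * X.D.t y := by
      unfold TD.B
      simp only [mul_assoc]
    rw [e]
    have k1 : X.D.t u * X.D.t x ∈ Lt X ((X.cs.length u + X.cs.length x) + 1) := by
      have := t_mul_Lt (X := X) u (t_mem_Lt (X := X) (w := x) (n := X.cs.length x + 1) (Nat.lt_succ_self _))
      rwa [← add_assoc] at this
    have k2 : X.D.t y ∈ Lt X (X.cs.length y + 1) := t_mem_Lt (Nat.lt_succ_self _)
    exact En_le X N (X.cs.length u + X.cs.length x) (X.cs.length y) (step1' hI hg hα k1 k2)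
  | zero => rw [mul_zero]; exact zero_mem _
  | add Y Z _ _ h1 h2 => rw [mul_add]; exact add_mem h1 h2
  | smul p Z _ h => rw [mul_smul_comm]; exact Submodule.smul_mem _ _ h

theorem Ei_mul_t {N : ℕ} (u : W) {Z : H} (hZ : Z ∈ Ei X N) : Z * X.D.t u ∈ Ei X N := by
  induction hZ using Submodule.span_induction with
  | mem Z hZ =>
    obtain ⟨x, g, y, ⟨I, hI, hx, hg, hy⟩, hα, rfl⟩ := hZ
    have e : X.B x g y * X.D.t u = X.D.t x * X.D.c g * (X.D.t y * X.D.t u) := by
      unfold TD.B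
      simp only [mul_assoc]
    rw [e]
    have k1 : X.D.t y * X.D.t u ∈ Lt X ((X.cs.length y + X.cs.length u) + 1) := by
      have := t_mul_Lt (X := X) y (t_mem_Lt (X := X) (w := u) (n := X.cs.length u + 1) (Nat.lt_succ_self _))
      rwa [← add_assoc] at this
    have k2 : X.D.t x ∈ Lt X (X.cs.length x + 1) := t_mem_Lt (Nat.lt_succ_self _)
    exact En_le X N (X.cs.length x) (X.cs.length y + X.cs.length u) (step1' hI hg hα k2 k1)
  | zero => rw [zero_mul]; exact zero_mem _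
  | add Y Z _ _ h1 h2 => rw [add_mul]; exact add_mem h1 h2
  | smul p Z _ h => rw [smul_mul_assoc]; exact Submodule.smul_mem _ _ h

theorem mul_Ei {N : ℕ} (Y : H) {Z : H} (hZ : Z ∈ Ei X N) : Y * Z ∈ Ei X N := by
  rw [eq_sumT X Y, Finset.sum_mul]
  refine Submodule.sum_mem _ fun u _ => ?_
  rw [smul_mul_assoc]
  exact Submodule.smul_mem _ _ (t_mul_Ei u hZ)

theorem Ei_mul {N : ℕ} (Y : H) {Z : H} (hZ : Z ∈ Ei X N) : Z * Y ∈ Ei X N := by
  rw [eq_sumT X Y, Finset.mul_sum]
  refine Submodule.sum_mem _ fun u _ => ?_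
  rw [mul_smul_comm]
  exact Submodule.smul_mem _ _ (Ei_mul_t u hZ)

theorem t (hIGE : IGE) : Pool.Agent.Helper74.LL.IDS := by
  intro S W H _ _ _ _ X M hBP x y z hxy hne
  obtain ⟨-, hmono, -, -, -, -, hdec⟩ := hIGE S W H X
  have h2 : ∀ (x g y : W), X.Adm x g y → M + 1 ≤ X.α g → X.B x g y ∈ X.Vm M :=
    fun x g y h1 h3 => step2 hmono hBP _ x g y rfl h1 h3
  have h3 : ∀ z, X.Ge (M + 1) z → X.D.c z ∈ Ei X (M + 1) := fun z hz => step3 hdec h2 _ z rfl hz
  have h4 : Ei X (M + 1) ≤ X.Vm M := by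
    refine Submodule.span_le.2 ?_
    rintro Z ⟨x, g, y, h5, h6, rfl⟩
    exact h2 x g y h5 h6
  have h5 : X.D.c x * X.D.c y ∈ Ei X (M + 1) := by
    rcases hxy with h | h
    · exact Ei_mul _ (h3 x h)
    · exact mul_Ei _ (h3 y h)
  by_contra hz
  apply hne
  rw [← X.repr_mul_c]
  exact TD.mem_Vm.1 (h4 h5) z hz

end Pool.Agent.Helper2.LL.IDS
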